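import Mathlib
import Pool.Agent.Q182.SigmaProd

/-!
# A countably compact abelian g-reversible group that is not minimal
-/

namespace Pool.Agent.Results.MP_f1805c_gt.SigmaReversible

open Filter Topology Set

/-- `G` is g-reversible: every continuous group automorphism of `G` is an open map. -/
def IsGReversible (G : Type) [AddCommGroup G] [TopologicalSpace G] : Prop :=
  ∀ f : G ≃+ G, Continuous f → IsOpenMap f

/-- `G` is minimal: no Hausdorff group topology on `G` is strictly coarser than the given one. -/
def IsMinimalGroup (G : Type) [AddCommGroup G] [t : TopologicalSpace G] : Prop :=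
  ¬ ∃ s : TopologicalSpace G, @IsTopologicalAddGroup G s _ ∧ @T2Space G s ∧ t < s

/-- `X` is pseudocompact: every continuous real-valued function on `X` is bounded. -/
def IsPseudocompact (X : Type) [TopologicalSpace X] : Prop :=
  ∀ f : X → ℝ, Continuous f → ∃ C : ℝ, ∀ x, |f x| ≤ C

lemma pseudocompact_of_countablyCompact (X : Type) [TopologicalSpace X]
    [CountablyCompactSpace X] : IsPseudocompact X := by
  intro f hf
  have h := (CountablyCompactSpace.isCountablyCompact_univ (E := X)).elim_finite_subcover
    (U := fun n : ℕ => {x | |f x| < n})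
    (fun n => isOpen_lt (continuous_abs.comp hf) continuous_const)
    (fun x _ => by
      obtain ⟨n, hn⟩ := exists_nat_gt |f x|
      exact mem_iUnion.2 ⟨n, hn⟩)
  obtain ⟨t, ht⟩ := h
  refine ⟨(t.sup id : ℕ), fun x => ?_⟩
  obtain ⟨n, hn, hx⟩ := mem_iUnion₂.1 (ht (mem_univ x))
  have h1 : (n : ℝ) ≤ (t.sup id : ℕ) := by
    exact_mod_cast Finset.le_sup (f := id) hn
  exact (le_of_lt hx).trans h1

lemma reversible (I : Type) : IsGReversible (Q182.SigmaProd.Sig I) := by
  intro f hf
  have hcont : Continuous f.symm := by
    apply continuous_of_continuousAt_zero f.symm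
    rw [ContinuousAt, map_zero]
    intro U hU
    rw [mem_map]
    obtain ⟨V, hVU, hVo, hV0⟩ := mem_nhds_iff.1 hU
    by_contra hcon
    have h0 : (0 : Q182.SigmaProd.Sig I) ∈ closure (f.symm ⁻¹' V)ᶜ := by
      rw [closure_compl]
      intro h
      exact hcon (mem_of_superset (mem_interior_iff_mem_nhds.1 h) (preimage_mono hVU))
    obtain ⟨B, hBV, hBc, hB0⟩ := Q182.SigmaProd.tight h0
    obtain ⟨C, hC, hDC⟩ := Q182.SigmaProd.exists_box (hBc.image f.symm)
    have hK : IsCompact (Q182.SigmaProd.box C ∩ Vᶜ) :=
      (Q182.SigmaProd.isCompact_box hC).inter_right hVo.isClosed_compl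
    have hfK : IsClosed (f '' (Q182.SigmaProd.box C ∩ Vᶜ)) := (hK.image hf).isClosed
    have hBK : B ⊆ f '' (Q182.SigmaProd.box C ∩ Vᶜ) := by
      intro b hb
      refine ⟨f.symm b, ⟨hDC ⟨b, hb, rfl⟩, hBV hb⟩, by simp⟩
    obtain ⟨k, ⟨-, hk⟩, hk0⟩ := closure_minimal hBK hfK hB0
    have : k = 0 := by
      apply f.injective
      rw [hk0, map_zero]
    rw [this] at hk
    exact hk hV0
  have hopen : IsOpenMap f := by
    intro U hU
    have : f '' U = f.symm ⁻¹' U := by
      ext x
      constructor
      · rintro ⟨y, hy, rfl⟩
        simpa using hy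
      · intro hx
        exact ⟨f.symm x, hx, by simp⟩
    rw [this]
    exact hU.preimage hcont
  exact hopen

lemma not_minimal (I : Type) [Uncountable I] : ¬ IsMinimalGroup (Q182.SigmaProd.Sig I) := by
  classical
  obtain ⟨i₀⟩ : Nonempty I := inferInstance
  let g : Q182.SigmaProd.Sig I →+ (I → ZMod 2) :=
    { toFun := fun x i => x.1 i - x.1 i₀
      map_zero' := by
        ext i
        simp
      map_add' := fun x y => by
        ext i
        simp only [AddSubgroup.coe_add, Pi.add_apply]
        ring }
  have hginj : Function.Injective g := by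
    rw [injective_iff_map_eq_zero]
    intro x hx
    have h1 : ∀ i, x.1 i = x.1 i₀ := fun i => by
      have := congrFun hx i
      exact sub_eq_zero.1 this
    by_cases h : x.1 i₀ = 0
    · apply Subtype.ext
      ext i
      rw [h1 i, h]
      rfl
    · exfalso
      have h2 : {i | x.1 i ≠ 0} = univ := by
        ext i
        simp only [mem_ofPred_eq, mem_univ, iff_true]
        rw [h1 i]
        exact h
      have h3 : {i | x.1 i ≠ 0}.Countable := x.2
      rw [h2] at h3
      exact Set.not_countable_univ h3
  have hgcont : Continuous g := by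
    apply continuous_pi
    intro i
    have h : ∀ j, Continuous (fun x : Q182.SigmaProd.Sig I => x.1 j) := fun j =>
      (continuous_apply j).comp continuous_subtype_val
    exact (h i).sub (h i₀)
  intro hmin
  apply hmin
  refine ⟨TopologicalSpace.induced g inferInstance, topologicalAddGroup_induced g, ?_, ?_⟩
  · let _ : TopologicalSpace (Q182.SigmaProd.Sig I) := TopologicalSpace.induced g inferInstance
    exact T2Space.of_injective_continuous hginj continuous_induced_dom
  · rw [lt_iff_le_and_ne]
    refine ⟨continuous_iff_le_induced.1 hgcont, fun heq => ?_⟩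
    -- the set where the coordinate `i₀` vanishes is not a neighbourhood of zero
    have h1 : {x : Q182.SigmaProd.Sig I | ∀ i ∈ ({i₀} : Finset I), x.1 i = 0} ∈
        𝓝 (0 : Q182.SigmaProd.Sig I) := Q182.SigmaProd.nhds_zero_of_finset {i₀}
    rw [heq, nhds_induced, map_zero, mem_comap] at h1
    obtain ⟨V, hV, hVU⟩ := h1
    rw [nhds_pi, Filter.mem_pi] at hV
    obtain ⟨J, hJ, W, hW, hWV⟩ := hV
    let x : Q182.SigmaProd.Sig I := ⟨fun i => if i ∈ insert i₀ J then 1 else 0, by
      refine Set.Countable.mono ?_ (hJ.insert i₀).countable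
      intro i hi
      by_contra h
      exact hi (if_neg h)⟩
    have hx : x ∈ g ⁻¹' V := by
      apply hWV
      intro i hi
      have : g x i = 0 := by
        show (if i ∈ insert i₀ J then (1 : ZMod 2) else 0) -
          (if i₀ ∈ insert i₀ J then (1 : ZMod 2) else 0) = 0
        rw [if_pos (mem_insert_of_mem _ hi), if_pos (mem_insert _ _), sub_self]
      rw [this]
      exact mem_of_mem_nhds (hW i)
    have h2 := hVU hx i₀ (by simp)
    have h3 : x.1 i₀ = 1 := if_pos (mem_insert _ _)
    rw [h3] at h2
    exact absurd h2 (by decide)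

/-- There is a Hausdorff abelian topological group that is countably compact (hence pseudocompact)
and g-reversible, but not minimal. -/
theorem result :
    ∃ (G : Type) (_ : AddCommGroup G) (_ : TopologicalSpace G),
      IsTopologicalAddGroup G ∧ T2Space G ∧ CountablyCompactSpace G ∧ IsPseudocompact G ∧
      IsGReversible G ∧ ¬ IsMinimalGroup G := by
  have : Uncountable ℝ := inferInstance
  exact ⟨Q182.SigmaProd.Sig ℝ, inferInstance, inferInstance, inferInstance, inferInstance,
    inferInstance, pseudocompact_of_countablyCompact _, reversible ℝ, not_minimal ℝ⟩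

end Pool.Agent.Results.MP_f1805c_gt.SigmaReversible
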